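import Pool.Agent.Lib.MP_ef3f0f_gt.Stmt
import Pool.Agent.Lib.MP_ef3f0f_gt.U.Final

set_option autoImplicit false

/-!
# MP_ef3f0f_gt: surface subgroups of uniform lattices in `SL_n(ℝ) × H`, `n ≥ 3` odd

The proof is in `Pool/Agent/Lib/MP_ef3f0f_gt/U`.
-/

open Pool.Agent.MPEF

/-- Let `n ≥ 3` be odd, `H` a locally compact, Hausdorff, second countable, compactly generated
topological group and `Γ` a discrete cocompact subgroup of `SL_n(ℝ) × H`. Then there is an injective
homomorphism from a surface group of genus at least two to `Γ`. -/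
theorem Pool.Agent.Results.MP_ef3f0f_gt.OddSpecialLinear.result
    (n : ℕ) (hn : Odd n) (h3 : 3 ≤ n)
    (H : Type) [Group H] [TopologicalSpace H] [IsTopologicalGroup H] [LocallyCompactSpace H]
    [T2Space H] [SecondCountableTopology H]
    (hH : ∃ K : Set H, IsCompact K ∧ Subgroup.closure K = ⊤)
    (Γ : Subgroup (Matrix.SpecialLinearGroup (Fin n) ℝ × H)) (hd : DiscreteTopology Γ)
    (hc : CompactSpace ((Matrix.SpecialLinearGroup (Fin n) ℝ × H) ⧸ Γ)) :
    ∃ g : ℕ, 2 ≤ g ∧ ∃ f : SurfaceGroup g →* Matrix.SpecialLinearGroup (Fin n) ℝ × H,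
      (∀ x, f x ∈ Γ) ∧ Function.Injective f := by
  obtain ⟨m, rfl⟩ := hn
  exact U.tOdd m (by omega) H hH Γ hd hc
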