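import Pool.Agent.Lib.MP_ef3f0f_gt.Stmt
import Pool.Agent.Lib.MP_ef3f0f_gt.U.Final

set_option autoImplicit false

/-!
# MP_ef3f0f_gt: surface subgroups of uniform lattices in `PSL_n(ℝ) × H`, `n = 2` or `n ≥ 3` odd

The proof is in `Pool/Agent/Lib/MP_ef3f0f_gt` (texts: `TEXT.md`, `DEDUCTION.md`).
-/

open Pool.Agent.MPEF

/-- Let `n = 2` or `n ≥ 3` odd, `H` a locally compact, Hausdorff, second countable, compactly
generated topological group and `Γ` a discrete cocompact subgroup of `PSL_n(ℝ) × H`, with dense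
projection to `PSL_n(ℝ)` if `n = 2`. Then there is an injective homomorphism from a surface group of
genus at least two to `Γ`; if `n = 2`, its first component can be taken to be injective. -/
theorem Pool.Agent.Results.MP_ef3f0f_gt.RemainingLattices.result
    (n : ℕ) (hn : n = 2 ∨ 3 ≤ n ∧ Odd n)
    (H : Type) [Group H] [TopologicalSpace H] [IsTopologicalGroup H] [LocallyCompactSpace H]
    [T2Space H] [SecondCountableTopology H]
    (hH : ∃ K : Set H, IsCompact K ∧ Subgroup.closure K = ⊤)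
    (Γ : Subgroup (Matrix.ProjectiveSpecialLinearGroup (Fin n) ℝ × H)) (hd : DiscreteTopology Γ)
    (hc : CompactSpace ((Matrix.ProjectiveSpecialLinearGroup (Fin n) ℝ × H) ⧸ Γ))
    (hD : n = 2 →
      Dense (Prod.fst '' (Γ : Set (Matrix.ProjectiveSpecialLinearGroup (Fin n) ℝ × H)))) :
    ∃ g : ℕ, 2 ≤ g ∧ ∃ f : SurfaceGroup g →* Matrix.ProjectiveSpecialLinearGroup (Fin n) ℝ × H,
      (∀ x, f x ∈ Γ) ∧ Function.Injective f ∧ (n = 2 → Function.Injective fun x => (f x).1) :=
  U.tSU n hn H hH Γ hd hc hD
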