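import Pool.Agent.Lib.MP_ef3f0f_gt.Stmt
import Pool.Agent.Lib.MP_ef3f0f_gt.all

set_option autoImplicit false

/-!
# MP_ef3f0f_gt: surface subgroups of uniform lattices in `PSL₂(ℝ) × H`

The proof is in `Pool/Agent/Lib/MP_ef3f0f_gt` (text: `TEXT.md`).
-/

open Pool.Agent.MPEF

/-- Let `H` be a locally compact, Hausdorff, second countable, compactly generated topological
group and `Γ` a discrete cocompact subgroup of `PSL₂(ℝ) × H` with dense projection to `PSL₂(ℝ)`.
Then there is a homomorphism from a surface group of genus at least two to `Γ` whose first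
component (in `PSL₂(ℝ)`) is injective. -/
theorem Pool.Agent.Results.MP_ef3f0f_gt.SurfaceSubgroups.result
    (H : Type) [Group H] [TopologicalSpace H] [IsTopologicalGroup H] [LocallyCompactSpace H]
    [T2Space H] [SecondCountableTopology H]
    (hH : ∃ K : Set H, IsCompact K ∧ Subgroup.closure K = ⊤)
    (Γ : Subgroup (PSL2 × H)) (hd : DiscreteTopology Γ) (hc : CompactSpace ((PSL2 × H) ⧸ Γ))
    (hD : Dense (Prod.fst '' (Γ : Set (PSL2 × H)))) :
    ∃ g : ℕ, 2 ≤ g ∧ ∃ f : SurfaceGroup g →* PSL2 × H,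
      (∀ x, f x ∈ Γ) ∧ Function.Injective fun x => (f x).1 :=
  tAll H hH Γ hd hc hD
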